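import Mathlib

/-!
# Numbers for AFS (helper45)
-/

set_option autoImplicit false

open Set Filter
open scoped Real Topology

namespace Pool.Agent.H45.NVP_AFS

theorem ev_exp (a : ℕ) (C c : ℝ) (hc : 0 < c) :
    ∀ᶠ T : ℝ in atTop, C * T ^ a * Real.exp (-(c * T ^ ((1 : ℝ) / 2))) ≤ 1 / 2 := by
  have h1 := tendsto_rpow_mul_exp_neg_mul_atTop_nhds_zero (2 * a : ℝ) c hc
  have h2 := h1.comp (tendsto_rpow_atTop (show (0 : ℝ) < 1 / 2 by norm_num))
  have h3 := (h2.const_mul C)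
  rw [mul_zero] at h3
  have h4 := h3.eventually (ge_mem_nhds (show (0 : ℝ) < 1 / 2 by norm_num))
  filter_upwards [h4, eventually_ge_atTop 0] with T hT hT0
  refine le_trans (le_of_eq ?_) hT
  simp only [Function.comp]
  have h5 : (T ^ ((1 : ℝ) / 2)) ^ (2 * a : ℝ) = T ^ a := by
    rw [← Real.rpow_mul hT0, show (1 : ℝ) / 2 * (2 * a) = (a : ℕ) by ring, Real.rpow_natCast]
  rw [h5, neg_mul]
  ring

theorem est (n j j1 : ℕ) (hn : 1 ≤ n) (C1 C2 Q S K c δ : ℝ) (hC1 : 0 < C1) (hC2 : 0 < C2)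
    (hQ : 1 ≤ Q) (hS : 0 ≤ S) (hc : 0 < c) (hδ : 0 < δ) :
    ∃ T₀ : ℝ, ∀ T : ℝ, T₀ ≤ T → 1 ≤ T ∧ ∀ a : ℝ, 1 ≤ a → a ≤ T ^ ((n : ℝ) * (1 / 2 - δ)) → 0 ≤ K →
      C1 * K * T ^ n * (a * Q * (Q * a) ^ (((2 * n * (13 + j) : ℕ) : ℝ) / n) *
        (C2 * (a + T) ^ j / T ^ (2 * n * (13 + j))) +
        S * (a + T) ^ j1 * Real.exp (-(c * (T ^ ((n : ℝ) / 2) / Q) ^ (1 / (n : ℝ))))) ≤
      T ^ (-(10 * n : ℝ)) := by
  have hQ0 : 0 < Q := by linarith
  have hnR : (n : ℝ) ≠ 0 := by positivity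
  set c' : ℝ := c / Q ^ (1 / (n : ℝ)) with hc'
  have hc'0 : 0 < c' := by positivity
  set A1 : ℝ := C1 * |K| * Q * Q ^ (2 * (13 + j)) * C2 * 2 ^ j with hA1
  have hA1nn : 0 ≤ A1 := by positivity
  set A2 : ℝ := C1 * |K| * S * 2 ^ j1 with hA2
  have hev := (ev_exp (n * (11 + j1)) A2 c' hc'0).and
    ((eventually_ge_atTop (1 : ℝ)).and (eventually_ge_atTop (2 * A1)))
  obtain ⟨T₀, hT₀⟩ := eventually_atTop.1 hev
  refine ⟨T₀, fun T hT => ?_⟩
  obtain ⟨h1, hT1, hT2⟩ := hT₀ T hT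
  refine ⟨hT1, fun a ha haT hK => ?_⟩
  have hT0 : 0 < T := by linarith
  have ha0 : 0 < a := by linarith
  set P : ℝ := T ^ n with hP
  have hPT : T ≤ P := by
    calc T = T ^ 1 := (pow_one T).symm
      _ ≤ T ^ n := pow_le_pow_right₀ hT1 hn
  have hP1 : 1 ≤ P := hT1.trans hPT
  have hP0 : 0 < P := by linarith
  have ha2 : a ^ 2 ≤ P := by
    have h2 : a ≤ T ^ ((n : ℝ) / 2) := by
      refine haT.trans (Real.rpow_le_rpow_of_exponent_le hT1 ?_)
      have : (0 : ℝ) ≤ n := by positivity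
      nlinarith [mul_nonneg this hδ.le]
    calc a ^ 2 ≤ (T ^ ((n : ℝ) / 2)) ^ 2 := pow_le_pow_left₀ ha0.le h2 2
      _ = P := by
        rw [← Real.rpow_natCast (T ^ ((n : ℝ) / 2)), ← Real.rpow_mul hT0.le]
        rw [show (n : ℝ) / 2 * ((2 : ℕ) : ℝ) = (n : ℕ) by push_cast; ring, Real.rpow_natCast]
  have haP : a ≤ P := by nlinarith
  have hsum : a + T ≤ 2 * P := by linarith
  have hexp : (((2 * n * (13 + j) : ℕ) : ℝ)) / n = ((2 * (13 + j) : ℕ) : ℝ) := by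
    push_cast
    field_simp
  rw [hexp, Real.rpow_natCast]
  have hTm : T ^ (2 * n * (13 + j)) = P ^ (2 * (13 + j)) := by
    rw [hP, ← pow_mul]
    congr 1
    ring
  rw [hTm]
  have hKabs : |K| = K := abs_of_nonneg hK
  -- first term
  have t1 : C1 * K * P * (a * Q * (Q * a) ^ (2 * (13 + j)) *
      (C2 * (a + T) ^ j / P ^ (2 * (13 + j)))) ≤ 1 / 2 * (1 / P ^ 10) := by
    have e1 : (Q * a) ^ (2 * (13 + j)) ≤ Q ^ (2 * (13 + j)) * P ^ (13 + j) := by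
      rw [mul_pow]
      refine mul_le_mul_of_nonneg_left ?_ (by positivity)
      rw [pow_mul]
      exact pow_le_pow_left₀ (by positivity) ha2 _
    have e2 : (a + T) ^ j ≤ 2 ^ j * P ^ j := by
      rw [← mul_pow]
      exact pow_le_pow_left₀ (by positivity) hsum _
    calc C1 * K * P * (a * Q * (Q * a) ^ (2 * (13 + j)) *
          (C2 * (a + T) ^ j / P ^ (2 * (13 + j))))
        ≤ C1 * K * P * (P * Q * (Q ^ (2 * (13 + j)) * P ^ (13 + j)) *
          (C2 * (2 ^ j * P ^ j) / P ^ (2 * (13 + j)))) := by gcongr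
      _ = A1 / P ^ 11 := by
        rw [hA1, hKabs, show P ^ (2 * (13 + j)) = P ^ (13 + j) * (P ^ j * P ^ 13) by
          rw [← pow_add, ← pow_add]; congr 1; ring]
        field_simp
      _ ≤ 1 / 2 * (1 / P ^ 10) := by
        rw [show 1 / 2 * (1 / P ^ 10) = P / 2 / P ^ 11 by field_simp]
        have : A1 ≤ P / 2 := by linarith
        gcongr
  -- second term
  have t2 : C1 * K * P * (S * (a + T) ^ j1 *
      Real.exp (-(c * (T ^ ((n : ℝ) / 2) / Q) ^ (1 / (n : ℝ))))) ≤ 1 / 2 * (1 / P ^ 10) := by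
    have e1 : c * (T ^ ((n : ℝ) / 2) / Q) ^ (1 / (n : ℝ)) = c' * T ^ ((1 : ℝ) / 2) := by
      rw [Real.div_rpow (by positivity) hQ0.le, ← Real.rpow_mul hT0.le,
        show (n : ℝ) / 2 * (1 / n) = 1 / 2 by field_simp, hc']
      ring
    have e2 : (a + T) ^ j1 ≤ 2 ^ j1 * P ^ j1 := by
      rw [← mul_pow]
      exact pow_le_pow_left₀ (by positivity) hsum _
    rw [e1]
    set X : ℝ := Real.exp (-(c' * T ^ ((1 : ℝ) / 2))) with hX
    have hX0 : 0 < X := Real.exp_pos _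
    have e3 : A2 * P ^ (11 + j1) * X ≤ 1 / 2 := by
      have : T ^ (n * (11 + j1)) = P ^ (11 + j1) := by rw [hP, ← pow_mul]
      rw [this] at h1
      exact h1
    calc C1 * K * P * (S * (a + T) ^ j1 * X) ≤ C1 * K * P * (S * (2 ^ j1 * P ^ j1) * X) := by
          gcongr
      _ = (A2 * P ^ (11 + j1) * X) / P ^ 10 := by
        rw [hA2, hKabs, show P ^ (11 + j1) = P ^ 10 * (P * P ^ j1) by
          rw [← pow_succ', ← pow_add]; congr 1; ring]
        field_simp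
      _ ≤ (1 / 2) / P ^ 10 := by gcongr
      _ = 1 / 2 * (1 / P ^ 10) := by ring
  have hfin : T ^ (-(10 * n : ℝ)) = 1 / P ^ 10 := by
    rw [Real.rpow_neg hT0.le, show (10 * n : ℝ) = ((n * 10 : ℕ) : ℝ) by push_cast; ring,
      Real.rpow_natCast, pow_mul, one_div]
  rw [hfin, mul_add]
  linarith

end Pool.Agent.H45.NVP_AFS
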