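import Pool.Agent.H65.NV.PTargets
import Pool.Agent.H45.NVP.AFSnum

/-!
# AFS: the average for the first moment (helper45)
-/

set_option autoImplicit false

open MeasureTheory Set Filter NumberField NumberField.InfinitePlace
open scoped Real

namespace Pool.Agent.H45.NVP_AFS

open Pool.Agent.H65.CM4 Pool.Agent.H61.NVK Pool.Agent.H89.NV Pool.Agent.H65.NV

section

variable {k : Type} [Field k] [NumberField k]

theorem nm_mul (I J : Ideal (𝓞 k)) : nm (I * J) = nm I * nm J := by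
  simp [nm, map_mul]

theorem one_le_nm {I : Ideal (𝓞 k)} (h : I ≠ ⊥) : 1 ≤ nm I := by
  unfold nm
  have h1 : Ideal.absNorm I ≠ 0 := by
    rw [Ne, Ideal.absNorm_eq_zero_iff]
    exact h
  exact_mod_cast Nat.one_le_iff_ne_zero.2 h1

end

section

variable (k : Type) [Field k] [NumberField k] [IsTotallyReal k]

open Classical in
theorem avg_eq (hEMS : T_EMS k) (hRSF : T_RSF k) (f q A : Ideal (𝓞 k)) (hf : f ≠ ⊥)
    (hq : q ≠ ⊥) (hA : A ≠ ⊥) (W : 𝓞 k → ℝ)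
    (h1 : ∀ b ∈ f, ∀ x ∈ q * f, W (b + x) = W b)
    (h2 : ∀ b ∈ f, ∀ x ∈ ni k 2 * (A * f), W (b + x) = W b) :
    nm q * ∑ b ∈ (Rs (ni k 2 * (A * f))).filter (fun b => b ∈ f), W b =
      2 ^ dg k * nm A * ∑ b ∈ (Rs (q * f)).filter (fun b => b ∈ f), W b := by
  have h2ne : ni k 2 ≠ ⊥ := by
    unfold ni
    rw [Ne, Ideal.span_singleton_eq_bot]
    exact Nat.cast_ne_zero.2 two_ne_zero
  have hne : ni k 2 * A ≠ ⊥ := by
    intro h
    rcases Ideal.mul_eq_bot.1 h with h | h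
    · exact h2ne h
    · exact hA h
  have hn2 : nm (ni k 2) = (2 : ℝ) ^ dg k := by
    have := hEMS.2.2.2.2.2.2.2.2.1 2
    simpa using this
  have e1 := ((hRSF q f hq hf ((Rs (q * f)).filter (fun b => b ∈ f))
    (fun x => by simp)).2.2 W h1).2 (ni k 2 * A)
      ((Rs ((ni k 2 * A * q) * f)).filter (fun b => b ∈ f)) hne (fun x => by simp)
  have h2' : ∀ b ∈ f, ∀ x ∈ ni k 2 * A * f, W (b + x) = W b := by
    intro b hb x hx
    rw [mul_assoc] at hx
    exact h2 b hb x hx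
  have e2 := ((hRSF (ni k 2 * A) f hne hf ((Rs (ni k 2 * A * f)).filter (fun b => b ∈ f))
    (fun x => by simp)).2.2 W h2').2 q
      ((Rs ((q * (ni k 2 * A)) * f)).filter (fun b => b ∈ f)) hq (fun x => by simp)
  rw [mul_comm q (ni k 2 * A), e1, nm_mul, hn2, mul_assoc (ni k 2) A f] at e2
  exact e2.symm

theorem pf_AFS (hGDB : T_GDB k) (hEMB : T_EMB k) : T_AFS k := by
  classical
  intro hEMS hRSF hGAV hDRV hWTB f q G η hf hq hG K δ hδ _
  obtain ⟨⟨S, hS⟩, _⟩ := hGDB G η hG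
  have hn : 1 ≤ dg k := hEMB.2.1
  obtain ⟨j, hj⟩ := hDRV f G η hf hG
  obtain ⟨C2, hC2, hDR⟩ := hj (2 * dg k * (13 + j)) 0
  have hm : 1 ≤ 2 * dg k * (13 + j) := Nat.mul_pos (Nat.mul_pos two_pos hn) (by omega)
  obtain ⟨C1, c, j1, hC1, hc, hGA⟩ := hGAV f η (2 * dg k * (13 + j)) hf hG.pos hm
  have hQ : 1 ≤ nm q := one_le_nm hq
  have hS0 : 0 ≤ S := (abs_nonneg _).trans (hS 0)
  obtain ⟨T₀, hT₀⟩ := est (dg k) j j1 hn C1 C2 (nm q) S K c δ hC1 hC2 hQ hS0 hc hδ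
  refine ⟨T₀, fun T hT A w hw hA hnA => ?_⟩
  obtain ⟨hT1, hT2⟩ := hT₀ T hT
  have hK : 0 ≤ K := (abs_nonneg _).trans (hw.bd ⊤ A 0 0)
  have hT0 : 0 < T := by linarith
  have hA1 : 1 ≤ nm A := one_le_nm hA
  have hest := hT2 (nm A) hA1 hnA hK
  have hwt := hWTB f q K w ⊤ A hf hq hA hw
  have hcont : Continuous (fun d : Pl k → ℝ => G (fun v => d v / T)) :=
    hG.smooth.continuous.comp (by fun_prop)
  have hsupp : ∀ u : Pl k → ℝ, (∃ v, u v ∉ Icc (η * T) (T / η)) → G (fun v => u v / T) = 0 := by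
    rintro u ⟨v, hv⟩
    refine hG.supp _ ⟨v, fun h => hv ⟨?_, ?_⟩⟩
    · have := h.1
      rwa [le_div_iff₀ hT0] at this
    · have h3 := h.2
      rw [div_le_iff₀ hT0] at h3
      rw [div_eq_mul_one_div, mul_comm]
      exact h3
  have hL : 0 ≤ C2 * (nm A + T) ^ j / T ^ (2 * dg k * (13 + j)) := by positivity
  have key := hGA A q q (fun b c => w ⊤ A b c) (fun d => G (fun v => d v / T)) T K
    (C2 * (nm A + T) ^ j / T ^ (2 * dg k * (13 + j))) S hA hq hq hT1 hL hcont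
    (fun u => hS _) hsupp (fun b _ c _ => hw.bd ⊤ A b c)
    (fun b hb c hc' y hy => hw.perC ⊤ A b c hb hc' y hy) hwt.2.1 hwt.1
    (fun b _ => (hDR A (em b) T 1 hA hT1 one_pos).1)
  have hM := avg_eq k hEMS hRSF f q A hf hq hA
    (fun b => ∑ c ∈ (Rs (q * (A * f ^ 2))).filter (fun c => c ∈ A * f ^ 2), w ⊤ A b c)
    hwt.1 hwt.2.1
  have hQ0 : nm q ≠ 0 := by linarith
  have hA0 : nm A ≠ 0 := by linarith
  have hM' : wbar f q w ⊤ A =
      (∑ b ∈ (Rs (ni k 2 * (A * f))).filter (fun b => b ∈ f),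
        ∑ c ∈ (Rs (q * (A * f ^ 2))).filter (fun c => c ∈ A * f ^ 2), w ⊤ A b c) /
          (2 ^ dg k * nm A * nm q) := by
    unfold wbar
    rw [eq_div_iff (by positivity)]
    have h2 : (nm q ^ 2) ≠ 0 := by positivity
    field_simp
    linear_combination -hM
  have hLs : (∑' D : 𝓞 k, G (fun v => em D v / T) *
        ∑ b ∈ bs f A D, w ⊤ A b (q4 (b ^ 2 + D)) * zf A f (em b) (em D)) =
      ∑' D : 𝓞 k, ∑ b ∈ bs f A D, G (fun v => em D v / T) *
        (w ⊤ A b (q4 (b ^ 2 + D)) * zf A f (em b) (em D)) :=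
    tsum_congr fun D => Finset.mul_sum _ _ _
  rw [hLs, hM']
  refine key.trans (le_trans (le_of_eq ?_) hest)
  rw [nm_mul]

end

end Pool.Agent.H45.NVP_AFS
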